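import Pool.Agent.TH817.Z3.Stm
import Pool.Agent.H337R2.LZ.F4
import Pool.Agent.H337R2.LZ.F5
import Pool.Agent.H337R2.LZ.F6
import Pool.Agent.H337R2.Asym

set_option autoImplicit false

open Polynomial Pool.Agent.H337R2 Filter Topology

namespace Pool.Agent.TH879.Z3

open Pool.Agent.TH817.Z3

theorem fl_four {c : Cell} {n p : ℕ} (h0 : c.u0 * n < p * c.v0)
    (h1 : p * c.v1 ≤ c.u1 * n) (hv1 : 0 < c.v1)
    (ha : 4 * c.v0 ≤ (c.fl 4 + 1) * (2 * c.u0)) : 2 * n / p = c.fl 4 := by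
  have hp : 0 < p := by
    rcases Nat.eq_zero_or_pos p with h | h
    · subst h; omega
    · exact h
  apply Nat.div_eq_of_lt_le
  · have h2 : c.fl 4 * (2 * c.u1) ≤ 4 * c.v1 := Nat.div_mul_le_self _ _
    have h3 : (c.fl 4 * p) * (2 * c.v1) ≤ (2 * n) * (2 * c.v1) := by
      calc (c.fl 4 * p) * (2 * c.v1) = (c.fl 4 * 2) * (p * c.v1) := by ring
        _ ≤ (c.fl 4 * 2) * (c.u1 * n) := Nat.mul_le_mul_left _ h1
        _ = (c.fl 4 * (2 * c.u1)) * n := by ring
        _ ≤ (4 * c.v1) * n := Nat.mul_le_mul_right _ h2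
        _ = (2 * n) * (2 * c.v1) := by ring
    exact Nat.le_of_mul_le_mul_right h3 (by omega)
  · have h3 : (2 * n) * (2 * c.v0) < ((c.fl 4 + 1) * p) * (2 * c.v0) := by
      calc (2 * n) * (2 * c.v0) = (4 * c.v0) * n := by ring
        _ ≤ ((c.fl 4 + 1) * (2 * c.u0)) * n := Nat.mul_le_mul_right _ ha
        _ = ((c.fl 4 + 1) * 2) * (c.u0 * n) := by ring
        _ < ((c.fl 4 + 1) * 2) * (p * c.v0) := Nat.mul_lt_mul_of_pos_left h0 (by omega)
        _ = _ := by ring
    exact Nat.lt_of_mul_lt_mul_right h3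

/-- the factorial part in a cell -/
theorem F4 : StF4 := by
  intro c hc n p hn hp h0 h1
  unfold Cell.ok at hc
  simp only [Bool.and_eq_true, decide_eq_true_eq, List.all_cons, List.all_nil] at hc
  obtain ⟨⟨⟨⟨⟨⟨⟨⟨⟨hu0, hv0⟩, hu1⟩, hv1⟩, huv⟩, hfl⟩, _⟩, _⟩, _⟩, _⟩ := hc
  have e2 := fl_four h0 h1 hv1 (by omega)
  have s2 := Pool.Agent.LZ.F4x.sum_div p hp (2 * n)
  rw [e2] at s2
  unfold Cell.sf
  rw [Nat.cast_mul]
  push_cast at s2 ⊢
  linear_combination s2

noncomputable section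

open Pool.Agent.H574R2.D3 (F5_log_factorial F5_norm)

theorem F5_part (n K : ℕ) (hn : 40000 ≤ n) (hK : K ≤ 6 * n) :
    ∑ p ∈ (Finset.range (n + 1)).filter (fun p : ℕ => p.Prime ∧ 80 * p ≤ n), ∑ i ∈ Finset.range K,
      Real.log ((padicNorm p ((i.factorial : ℕ) : ℚ) : ℚ) : ℝ) ≤
    - ∑ i ∈ Finset.range K, Real.log (i.factorial : ℝ) +
      ∑ p ∈ PR (1 / 80) 6 n, ((∑ i ∈ Finset.range K, (i / p) : ℕ) : ℝ) * Real.log p := by
  classical
  set S := (Finset.range (15 * n)).filter (fun p : ℕ => p.Prime) with hS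
  -- the left side
  have hL : ∑ p ∈ (Finset.range (n + 1)).filter (fun p : ℕ => p.Prime ∧ 80 * p ≤ n),
      ∑ i ∈ Finset.range K, Real.log ((padicNorm p ((i.factorial : ℕ) : ℚ) : ℚ) : ℝ) =
      -∑ i ∈ Finset.range K, ∑ p ∈ S.filter (fun p => 80 * p ≤ n),
        (((i.factorial).factorization p : ℝ) * Real.log p) := by
    have : (Finset.range (n + 1)).filter (fun p : ℕ => p.Prime ∧ 80 * p ≤ n) =
        S.filter (fun p => 80 * p ≤ n) := by
      ext p
      simp only [hS, Finset.mem_filter, Finset.mem_range]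
      constructor
      · rintro ⟨h1, h2, h3⟩
        exact ⟨⟨by omega, h2⟩, h3⟩
      · rintro ⟨⟨h1, h2⟩, h3⟩
        exact ⟨by omega, h2, h3⟩
    rw [this, Finset.sum_comm, ← Finset.sum_neg_distrib]
    refine Finset.sum_congr rfl fun i _ => ?_
    rw [← Finset.sum_neg_distrib]
    refine Finset.sum_congr rfl fun p hp => ?_
    have hpp : p.Prime := by
      have := (Finset.mem_filter.1 hp).1
      exact (Finset.mem_filter.1 this).2
    exact F5_norm p i hpp
  have hR : ∑ i ∈ Finset.range K, Real.log (i.factorial : ℝ) =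
      ∑ i ∈ Finset.range K, ∑ p ∈ S.filter (fun p => 80 * p ≤ n),
        (((i.factorial).factorization p : ℝ) * Real.log p) +
      ∑ i ∈ Finset.range K, ∑ p ∈ S.filter (fun p => ¬ 80 * p ≤ n),
        (((i.factorial).factorization p : ℝ) * Real.log p) := by
    rw [← Finset.sum_add_distrib]
    refine Finset.sum_congr rfl fun i hi => ?_
    rw [Finset.sum_filter_add_sum_filter_not]
    exact F5_log_factorial _ _ (by rw [Finset.mem_range] at hi; omega)
  have hmain : ∑ i ∈ Finset.range K, ∑ p ∈ S.filter (fun p => ¬ 80 * p ≤ n),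
        (((i.factorial).factorization p : ℝ) * Real.log p) ≤
      ∑ p ∈ PR (1 / 80) 6 n, ((∑ i ∈ Finset.range K, (i / p) : ℕ) : ℝ) * Real.log p := by
    rw [Finset.sum_comm]
    have hPS : PR (1 / 80) 6 n = (S.filter (fun p => ¬ 80 * p ≤ n)).filter (fun p => p ≤ 6 * n) := by
      ext p
      unfold PR Pool.Agent.LZ.PR
      simp only [hS, Finset.mem_filter, Finset.mem_range]
      constructor
      · rintro ⟨h1, h2, h3, h4⟩
        refine ⟨⟨⟨h1, h2⟩, ?_⟩, by exact_mod_cast h4⟩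
        intro h5
        have h6 : (80 : ℚ) * p ≤ n := by exact_mod_cast h5
        linarith
      · rintro ⟨⟨⟨h1, h2⟩, h3⟩, h4⟩
        refine ⟨h1, h2, ?_, by exact_mod_cast h4⟩
        have h6 : (n : ℚ) < 80 * p := by
          have : n < 80 * p := by omega
          exact_mod_cast this
        linarith
    rw [hPS, ← Finset.sum_filter_add_sum_filter_not (S.filter (fun p => ¬ 80 * p ≤ n))
      (fun p => p ≤ 6 * n)]
    have hz : ∑ p ∈ (S.filter (fun p => ¬ 80 * p ≤ n)).filter (fun p => ¬ p ≤ 6 * n),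
        ∑ i ∈ Finset.range K, (((i.factorial).factorization p : ℝ) * Real.log p) = 0 := by
      refine Finset.sum_eq_zero fun p hp => Finset.sum_eq_zero fun i hi => ?_
      rw [Finset.mem_range] at hi
      have h1 := (Finset.mem_filter.1 hp).2
      have h2 : (i.factorial).factorization p = 0 :=
        Nat.factorization_factorial_eq_zero_of_lt (by omega)
      rw [h2]; simp
    rw [hz, add_zero]
    apply Finset.sum_le_sum
    intro p hp
    have h1 := (Finset.mem_filter.1 hp).2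
    have h2 := (Finset.mem_filter.1 (Finset.mem_filter.1 hp).1).2
    have h3 := (Finset.mem_filter.1 (Finset.mem_filter.1 (Finset.mem_filter.1 hp).1).1).2
    rw [← Finset.sum_mul]
    have := Fact.mk h3
    have h4 : ∀ i ∈ Finset.range K,
        ((i.factorial).factorization p : ℝ) = ((i / p : ℕ) : ℝ) := by
      intro i hi
      rw [Finset.mem_range] at hi
      have h5 : Nat.log p i < 2 := by
        apply Nat.log_lt_of_lt_pow' (by norm_num)
        have h9 : n + 1 ≤ 80 * p := by omega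
        have h10 : (n + 1) * (n + 1) ≤ (80 * p) * (80 * p) := Nat.mul_le_mul h9 h9
        have h11 : 40000 * n ≤ n * n := Nat.mul_le_mul_right n hn
        have h12 : 6400 * (6 * n) < 6400 * p ^ 2 := by nlinarith
        omega
      rw [Nat.factorization_def _ h3, padicValNat_factorial h5]
      have : Finset.Ico 1 2 = {1} := by decide
      rw [this]
      simp
    rw [Finset.sum_congr rfl h4, ← Nat.cast_sum]
  rw [hL, hR]
  linarith

end

/-- factorials: the small prime part -/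
theorem F5 : StF5 := by
  unfold StF5
  filter_upwards [eventually_ge_atTop 40000] with n hn
  have h1 := F5_part n (2 * n) hn (by omega)
  rw [← Finset.mul_sum]
  have h2 : ∑ p ∈ PR (1 / 80) 6 n,
        ((2 * ∑ i ∈ Finset.range (2 * n), (i / p) : ℕ) : ℝ) * Real.log p =
      2 * ∑ p ∈ PR (1 / 80) 6 n,
        ((∑ i ∈ Finset.range (2 * n), (i / p) : ℕ) : ℝ) * Real.log p := by
    rw [Finset.mul_sum]
    refine Finset.sum_congr rfl fun p _ => ?_
    push_cast
    ring
  rw [h2]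
  linarith

noncomputable section

/-- `4 log 2 - 6 = -3.2274` -/
theorem F6 : StF6 := by
  intro ε hε
  have hlog : Tendsto (fun x : ℝ => Real.log x / x) atTop (𝓝 0) := by
    have := Real.isLittleO_log_id_atTop.tendsto_div_nhds_zero
    simpa using this
  have h4 : Tendsto (fun n : ℕ => (2 * (n : ℝ))) atTop atTop :=
    tendsto_natCast_atTop_atTop.const_mul_atTop (by norm_num)
  have hl2 := (hlog.comp h4).eventually (gt_mem_nhds (show (0 : ℝ) < ε / 32 by positivity))
  filter_upwards [hl2, eventually_ge_atTop 1] with n h1 hn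
  have hn' : (1 : ℝ) ≤ n := by exact_mod_cast hn
  have hn0 : (0 : ℝ) < n := by linarith
  have h2 := Pool.Agent.LZ.F6_low (K := 2 * n) (by omega)
  have e4 : Pool.Agent.LZ.F6_G ((2 * n : ℕ) : ℝ) = 2 * (n : ℝ) ^ 2 * Real.log n +
      (2 * Real.log 2 - 3) * (n : ℝ) ^ 2 := by
    unfold Pool.Agent.LZ.F6_G
    push_cast
    rw [Real.log_mul (by norm_num) hn0.ne']
    ring
  rw [e4] at h2
  push_cast at h2
  have h8 : Real.log (2 * n) < ε / 32 * (2 * n) := by
    have h9 : Real.log (2 * (n : ℝ)) / (2 * n) < ε / 32 := h1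
    rwa [div_lt_iff₀ (by positivity)] at h9
  have h10 : (2 * (n : ℝ)) * Real.log (2 * n) ≤ ε / 8 * (n : ℝ) ^ 2 := by
    have := mul_le_mul_of_nonneg_left h8.le (show (0 : ℝ) ≤ 2 * n by positivity)
    refine this.trans (le_of_eq ?_)
    ring
  have h11 : (-(1614 / 1000) : ℝ) ≤ 2 * Real.log 2 - 3 := by
    have := Real.log_two_gt_d9
    linarith
  have h12 := mul_le_mul_of_nonneg_right h11 (show (0 : ℝ) ≤ (n : ℝ) ^ 2 by positivity)
  nlinarith [h2, h10, h12]

/-- small primes: trivial exponents -/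
theorem F7 : StF7 := by
  intro ε hε
  filter_upwards [rpow_lim 15 (by norm_num) (ε / 8960) (by positivity),
    theta_lim (1 / 80) (by norm_num) (ε / 56) (by positivity), eventually_ge_atTop 1] with n h1 h2 hn
  have hn0 : (1 : ℝ) ≤ n := by exact_mod_cast hn
  have hM1 : (1 : ℝ) ≤ 14 * (n : ℝ) + 1 := by linarith
  have hlog0 : 0 ≤ Real.log (14 * (n : ℝ) + 1) := Real.log_nonneg hM1
  -- second sum
  have hS2 : ∑ p ∈ (Finset.range (n + 1)).filter (fun p : ℕ => p.Prime ∧ 80 * p ≤ n), Real.log (p : ℝ) ≤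
      Chebyshev.theta (1 / 80 * n) := by
    unfold Chebyshev.theta
    apply Finset.sum_le_sum_of_subset_of_nonneg
    · intro p hp
      rw [Finset.mem_filter] at hp
      rw [Finset.mem_filter, Finset.mem_Ioc]
      refine ⟨⟨hp.2.1.pos, ?_⟩, hp.2.1⟩
      rw [Nat.le_floor_iff (by positivity)]
      have : ((80 * p : ℕ) : ℝ) ≤ (n : ℝ) := by exact_mod_cast hp.2.2
      push_cast at this
      linarith
    · intro p hp _
      rw [Finset.mem_filter] at hp
      exact Real.log_nonneg (by exact_mod_cast hp.2.one_lt.le)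
  -- first sum
  have hcard : (((Finset.range (n + 1)).filter (fun p : ℕ => p.Prime ∧ p ^ 2 ≤ 14 * n)).card : ℝ) ≤
      (Nat.sqrt (14 * n) : ℝ) + 1 := by
    have hsub : (Finset.range (n + 1)).filter (fun p : ℕ => p.Prime ∧ p ^ 2 ≤ 14 * n) ⊆
        Finset.range (Nat.sqrt (14 * n) + 1) := by
      intro p hp
      rw [Finset.mem_filter] at hp
      rw [Finset.mem_range]
      have : p ≤ Nat.sqrt (14 * n) := Nat.le_sqrt'.2 hp.2.2
      omega
    have := Finset.card_le_card hsub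
    rw [Finset.card_range] at this
    exact_mod_cast this
  have hS1 : ∑ p ∈ (Finset.range (n + 1)).filter (fun p : ℕ => p.Prime ∧ p ^ 2 ≤ 14 * n),
        40 * Real.log (14 * (n : ℝ) + 1) ≤ ε / 28 * n := by
    rw [Finset.sum_const, nsmul_eq_mul]
    have h3 : Real.log (14 * (n : ℝ) + 1) ≤ (14 * (n : ℝ) + 1) ^ (1 / 4 : ℝ) / (1 / 4) :=
      Real.log_le_rpow_div (by positivity) (by norm_num)
    have h4 : ((Nat.sqrt (14 * n) : ℕ) : ℝ) + 1 ≤ 2 * (14 * (n : ℝ) + 1) ^ (1 / 2 : ℝ) := by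
      have h5 : ((Nat.sqrt (14 * n) : ℕ) : ℝ) ≤ Real.sqrt (14 * (n : ℝ) + 1) := by
        apply Real.le_sqrt_of_sq_le
        have := Nat.sqrt_le' (14 * n)
        exact_mod_cast (by omega : Nat.sqrt (14 * n) ^ 2 ≤ 14 * n + 1)
      rw [← Real.sqrt_eq_rpow]
      have h6 : 1 ≤ Real.sqrt (14 * (n : ℝ) + 1) := by
        rw [Real.one_le_sqrt]; exact hM1
      linarith
    have h5 : (14 * (n : ℝ) + 1) ^ (3 / 4 : ℝ) ≤ ε / 8960 * n := by
      refine le_trans ?_ h1
      apply Real.rpow_le_rpow (by positivity) (by linarith) (by norm_num)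
    have h6 : (14 * (n : ℝ) + 1) ^ (1 / 2 : ℝ) * (14 * (n : ℝ) + 1) ^ (1 / 4 : ℝ) = (14 * (n : ℝ) + 1) ^ (3 / 4 : ℝ) := by
      rw [← Real.rpow_add (by positivity)]; norm_num
    have h7 : 0 ≤ (14 * (n : ℝ) + 1) ^ (1 / 2 : ℝ) := by positivity
    have h8 : 0 ≤ (14 * (n : ℝ) + 1) ^ (1 / 4 : ℝ) := by positivity
    calc _ ≤ (2 * (14 * (n : ℝ) + 1) ^ (1 / 2 : ℝ)) * (40 * ((14 * (n : ℝ) + 1) ^ (1 / 4 : ℝ) / (1 / 4))) := by
          apply mul_le_mul (hcard.trans h4) _ (by positivity) (by positivity)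
          linarith
      _ = 320 * ((14 * (n : ℝ) + 1) ^ (1 / 2 : ℝ) * (14 * (n : ℝ) + 1) ^ (1 / 4 : ℝ)) := by ring
      _ = 320 * (14 * (n : ℝ) + 1) ^ (3 / 4 : ℝ) := by rw [h6]
      _ ≤ 320 * (ε / 8960 * n) := mul_le_mul_of_nonneg_left h5 (by norm_num)
      _ = ε / 28 * n := by ring
  rw [abs_le] at h2
  have hT : Chebyshev.theta (1 / 80 * n) ≤ (1 / 80 + ε / 56) * n := by
    have := h2.2
    linarith
  have hn6 : 0 ≤ 2 * (n : ℝ) := by positivity
  have hn7 : 0 ≤ 6 * (n : ℝ) := by positivity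
  calc _ ≤ 2 * (n : ℝ) * (ε / 28 * n) + 6 * (n : ℝ) * ((1 / 80 + ε / 56) * n) :=
        add_le_add (mul_le_mul_of_nonneg_left hS1 hn6)
          (mul_le_mul_of_nonneg_left (hS2.trans hT) hn7)
    _ ≤ (6 / 80 + ε) * (n : ℝ) ^ 2 := by
        have h0 : 0 ≤ ε * (n : ℝ) ^ 2 := by positivity
        nlinarith

end

end Pool.Agent.TH879.Z3
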